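import Pool.Agent.Y330.P.A3

/-!
# The functional `Φ_[n]` of the volume-one cross-polytope exceeds `(√n / 4) Φ_[n](D_N)`

A quantitative form of the negative answer, with one body `K_N` in every dimension `N`: for every
`n ≥ 1` and every `N ≥ (12 n)^(4 n)` (both of arbitrary parity) the cross-polytope `K_N ⊂ ℝ^N` of
volume one satisfies `Φ_[n](K_N) > (√n / 4) Φ_[n](D_N)`.  So for all large `N` the best constant in
dimension `N` is at least `√(log N / log log N) / 16`.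
-/

set_option autoImplicit false

open MeasureTheory Metric Set Filter Topology

namespace Pool.Agent.Results.MP_ed9c69_gt.CrossPolytopeRate

open Pool.Agent.Results.MP_ed9c69_gt.CrossPolytope Pool.Agent.Y330.P

/-- Let `K N` be the cross-polytope of volume one in `ℝ^N` and `D N` the centred ball of volume one.

* (rate) For all `n ≥ 1` and all `N ≥ (12 n)^(4 n)`, `Φ_[n](K N) > (√n / 4) Φ_[n](D N)`, and
  `Φ_[n](K N)` is finite.
* (growth with the dimension) For all large `N` there is `n`, `1 ≤ n ≤ N - 1`, with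
  `Φ_[n](K N) > (1 / 16) √(log N / log log N) Φ_[n](D N)`.
* (the full negative answer) For every `C` there is `n` such that for all large `N`,
  `Φ_[n](K N) > C Φ_[n](D N)`. -/
theorem result : ∃ K D : (N : ℕ) → Set (E N),
    (∀ N : ℕ, 1 ≤ N → (∃ r : ℝ, 0 < r ∧ K N = cross N r) ∧ IsCentredBody N (K N) ∧
      IsUnitVolumeBall N (D N)) ∧
    (∀ n N : ℕ, 1 ≤ n → (12 * n) ^ (4 * n) ≤ N →
      n + 1 ≤ N ∧ Phi N n (K N) ≠ ⊤ ∧
        ENNReal.ofReal (√(n : ℝ) / 4) * Phi N n (D N) < Phi N n (K N)) ∧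
    (∀ᶠ N : ℕ in atTop, ∃ n : ℕ, 1 ≤ n ∧ n + 1 ≤ N ∧ Phi N n (K N) ≠ ⊤ ∧
      ENNReal.ofReal (1 / 16 * √(Real.log N / Real.log (Real.log N))) * Phi N n (D N) <
        Phi N n (K N)) ∧
    (∀ C : ℝ, ∃ n : ℕ, 1 ≤ n ∧ ∀ᶠ N : ℕ in atTop, n + 1 ≤ N ∧ Phi N n (K N) ≠ ⊤ ∧
      ENNReal.ofReal C * Phi N n (D N) < Phi N n (K N)) := by
  have hr : ∀ N : ℕ, ∃ r : ℝ, 1 ≤ N → 0 < r ∧ r ^ N = N.factorial / 2 ^ N := by
    intro N
    by_cases hN : 1 ≤ N
    · obtain ⟨r, h1, h2⟩ := exists_radius N (a := N.factorial / 2 ^ N) hN (by positivity)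
      exact ⟨r, fun _ => ⟨h1, h2⟩⟩
    · exact ⟨1, fun h => absurd h hN⟩
  have hρ : ∀ N : ℕ, ∃ ρ : ℝ, 1 ≤ N → 0 < ρ ∧ ρ ^ N = 1 / kap N := by
    intro N
    by_cases hN : 1 ≤ N
    · have hk := kap_pos N
      obtain ⟨r, h1, h2⟩ := exists_radius N (a := 1 / kap N) hN (by positivity)
      exact ⟨r, fun _ => ⟨h1, h2⟩⟩
    · exact ⟨1, fun h => absurd h hN⟩
  choose r hr using hr
  choose ρ hρ using hρ
  have hmain : ∀ n N : ℕ, 1 ≤ n → (12 * n) ^ (4 * n) ≤ N →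
      n + 1 ≤ N ∧ Phi N n (cross N (r N)) ≠ ⊤ ∧
        ENNReal.ofReal (√(n : ℝ) / 4) * Phi N n (closedBall (0 : E N) (ρ N)) <
          Phi N n (cross N (r N)) := by
    intro n N hn hN
    have hN1 : 1 ≤ N := le_trans (Nat.one_le_pow _ _ (by omega)) hN
    exact main1 hn hN (hr N hN1).1 (hρ N hN1).1 (hr N hN1).2 (hρ N hN1).2
  have hmono : ∀ {n N : ℕ} {a b : ℝ}, a ≤ b →
      ENNReal.ofReal b * Phi N n (closedBall (0 : E N) (ρ N)) < Phi N n (cross N (r N)) →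
      ENNReal.ofReal a * Phi N n (closedBall (0 : E N) (ρ N)) < Phi N n (cross N (r N)) := by
    intro n N a b hab h
    exact lt_of_le_of_lt (mul_le_mul_left (ENNReal.ofReal_le_ofReal hab) _) h
  refine ⟨fun N => cross N (r N), fun N => closedBall 0 (ρ N), ?_, hmain, ?_, ?_⟩
  · intro N hN
    refine ⟨⟨r N, (hr N hN).1, rfl⟩, cross_body hN (hr N hN).1 (hr N hN).2,
      ρ N, (hρ N hN).1, rfl, ball_vol' hN (hρ N hN).1 (hρ N hN).2⟩
  · filter_upwards [choose_n] with N hN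
    obtain ⟨n, h1, h2, h3⟩ := hN
    obtain ⟨h4, h5, h6⟩ := hmain n N h1 h2
    exact ⟨n, h1, h4, h5, hmono h3 h6⟩
  · intro C
    obtain ⟨n, hn⟩ := exists_nat_ge ((4 * C) ^ 2)
    refine ⟨n + 1, by omega, ?_⟩
    filter_upwards [eventually_ge_atTop ((12 * (n + 1)) ^ (4 * (n + 1)))] with N hN
    obtain ⟨h4, h5, h6⟩ := hmain (n + 1) N (by omega) hN
    refine ⟨h4, h5, hmono ?_ h6⟩
    have h7 : 4 * C ≤ √((n + 1 : ℕ) : ℝ) := by
      refine Real.le_sqrt_of_sq_le ?_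
      push_cast
      linarith
    linarith

end Pool.Agent.Results.MP_ed9c69_gt.CrossPolytopeRate
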